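import Mathlib

namespace Pool.Agent.Results.MP_6c59e0_nt.SkewLegendre

open Finset Matrix

/-- determinant of an alternating matrix over a field is a square -/
theorem isSquare_det_of_alt {K : Type} [Field K] : ∀ (N : ℕ) {ι : Type} [Fintype ι]
    [DecidableEq ι] (_ : Fintype.card ι = N) (A : Matrix ι ι K) (_ : ∀ i, A i i = 0)
    (_ : ∀ i j, A i j = - A j i), IsSquare A.det := by
  intro N
  induction N using Nat.strong_induction_on with
  | _ N ih =>
  intro ι _ _ hN A hd hs
  by_cases hA : A = 0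
  · rcases isEmpty_or_nonempty ι with h | h
    · rw [Matrix.det_isEmpty]; exact ⟨1, by simp⟩
    · rw [hA, Matrix.det_zero]; exact ⟨0, by simp⟩
  · obtain ⟨i, j, hij⟩ : ∃ i j, A i j ≠ 0 := by
      by_contra hcon
      push Not at hcon
      apply hA
      ext i j
      simpa using hcon i j
    have hne : i ≠ j := by
      rintro rfl
      exact hij (hd i)
    let P : ι → Prop := fun x => x = i ∨ x = j
    let e1 : Fin 2 ≃ {x // P x} := Equiv.ofBijective
      (fun t => if t = 0 then ⟨i, Or.inl rfl⟩ else ⟨j, Or.inr rfl⟩) (by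
        constructor
        · intro a b hab
          have hne' := hne.symm
          have hab' := congrArg Subtype.val hab
          fin_cases a <;> fin_cases b
          · rfl
          · exact absurd hab' (by simpa using hne)
          · exact absurd hab' (by simpa using hne')
          · rfl
        · rintro ⟨x, hx⟩
          rcases hx with rfl | rfl
          · exact ⟨0, by simp⟩
          · exact ⟨1, by simp⟩)
    let e : Fin 2 ⊕ {x // ¬ P x} ≃ ι :=
      (Equiv.sumCongr e1 (Equiv.refl _)).trans (Equiv.sumCompl P)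
    have he0 : e (Sum.inl 0) = i := by
      change ((e1 0 : {x // P x}) : ι) = i
      rfl
    have he1 : e (Sum.inl 1) = j := by
      change ((e1 1 : {x // P x}) : ι) = j
      rfl
    let A' := A.submatrix e e
    have hdet : A'.det = A.det := Matrix.det_submatrix_equiv_self e A
    have hd' : ∀ x, A' x x = 0 := fun x => hd _
    have hs' : ∀ x y, A' x y = - A' y x := fun x y => hs _ _
    let B := A'.toBlocks₁₁
    let a := A i j
    have hB : B = !![0, a; -a, 0] := by
      ext x y
      fin_cases x <;> fin_cases y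
      · simpa [B, Matrix.toBlocks₁₁] using hd' (Sum.inl 0)
      · simp [B, Matrix.toBlocks₁₁, A', he0, he1, a]
      · simp [B, Matrix.toBlocks₁₁, A', he0, he1, a]
        exact hs _ _
      · simpa [B, Matrix.toBlocks₁₁] using hd' (Sum.inl 1)
    have hBdet : B.det = a ^ 2 := by
      rw [hB, Matrix.det_fin_two_of]; ring
    have ha : a ≠ 0 := hij
    let Binv : Matrix (Fin 2) (Fin 2) K := !![0, -a⁻¹; a⁻¹, 0]
    have hBB : Binv * B = 1 := by
      rw [hB]
      ext x y
      fin_cases x <;> fin_cases y <;> simp [Binv, Matrix.mul_apply, Fin.sum_univ_two, ha]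
    have hBB' : B * Binv = 1 := by
      rw [hB]
      ext x y
      fin_cases x <;> fin_cases y <;> simp [Binv, Matrix.mul_apply, Fin.sum_univ_two, ha]
    let inv : Invertible B := ⟨Binv, hBB, hBB'⟩
    have h1 : A' = Matrix.fromBlocks B A'.toBlocks₁₂ A'.toBlocks₂₁ A'.toBlocks₂₂ :=
      (Matrix.fromBlocks_toBlocks A').symm
    rw [← hdet, h1, Matrix.det_fromBlocks₁₁, hBdet]
    have hinv : ⅟ B = Binv := rfl
    rw [hinv]
    have hcard : Fintype.card {x // ¬ P x} < N := by
      rw [← hN]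
      apply Fintype.card_subtype_lt (x := i)
      simp [P]
    have := ih _ hcard rfl (A'.toBlocks₂₂ - A'.toBlocks₂₁ * Binv * A'.toBlocks₁₂) (by
      intro x
      have e0 := hs' (Sum.inr x) (Sum.inl 0)
      have e1 := hs' (Sum.inr x) (Sum.inl 1)
      have e2 := hd' (Sum.inr x)
      simp only [Matrix.sub_apply, Matrix.mul_apply, Fin.sum_univ_two, Matrix.toBlocks₂₂,
        Matrix.toBlocks₂₁, Matrix.toBlocks₁₂, Matrix.of_apply, Binv]
      simp only [Matrix.cons_val', Matrix.cons_val_zero, Matrix.cons_val_one, Matrix.cons_val_fin_one]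
      rw [e0, e1, e2]
      ring) (by
      intro x y
      have e0 := hs' (Sum.inr x) (Sum.inl 0)
      have e1 := hs' (Sum.inr x) (Sum.inl 1)
      have e2 := hs' (Sum.inr x) (Sum.inr y)
      have f0 := hs' (Sum.inr y) (Sum.inl 0)
      have f1 := hs' (Sum.inr y) (Sum.inl 1)
      simp only [Matrix.sub_apply, Matrix.mul_apply, Fin.sum_univ_two, Matrix.toBlocks₂₂,
        Matrix.toBlocks₂₁, Matrix.toBlocks₁₂, Matrix.of_apply, Binv]
      simp only [Matrix.cons_val', Matrix.cons_val_zero, Matrix.cons_val_one, Matrix.cons_val_fin_one]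
      rw [e0, e1, e2, f0, f1]
      ring)
    obtain ⟨r, hr⟩ := this
    rw [hr]
    exact ⟨a * r, by ring⟩


section
variable {F : Type} [Field F]

/-- `∏_{r < 2k} f r` paired from the two ends. -/
theorem prod_pair (f : ℕ → F) (k : ℕ) :
    ∏ r ∈ range (k + k), f r = ∏ r ∈ range k, (f r * f (k + (k - 1 - r))) := by
  rw [prod_range_add, ← prod_range_reflect (fun r => f (k + r)) k, ← prod_mul_distrib]

/-- the coefficients -/
def cc (F : Type) [Field F] (k : ℕ) (i : ℕ) : F :=
  if i = 0 then -((2 * k + 4 : ℕ) : F) else if i = 1 then ((2 * k + 4 : ℕ) : F)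
  else ((2 * k + 3).choose i : F) * (-1) ^ (i + 1)

theorem prod_cc (k : ℕ) : ∏ i ∈ range (2 * k + 2), cc F k i =
    (-1) ^ (k + 1) * (((2 * k + 4 : ℕ) : F) * ∏ r ∈ range k, ((2 * k + 3).choose (r + 2) : F)) ^ 2 := by
  rw [show 2 * k + 2 = (k + k) + 1 + 1 by ring, prod_range_succ', prod_range_succ']
  rw [prod_pair (fun r => cc F k (r + 1 + 1)) k]
  have h1 : ∀ r ∈ range k, cc F k (r + 1 + 1) * cc F k (k + (k - 1 - r) + 1 + 1) =
      (-1) * ((2 * k + 3).choose (r + 2) : F) ^ 2 := by
    intro r hr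
    rw [mem_range] at hr
    have e1 : k + (k - 1 - r) + 1 + 1 = 2 * k + 3 - (r + 2) := by omega
    have e2 : (2 * k + 3).choose (2 * k + 3 - (r + 2)) = (2 * k + 3).choose (r + 2) :=
      Nat.choose_symm (by omega)
    have e3 : (-1 : F) ^ (r + 1 + 1 + 1) * (-1) ^ (2 * k + 3 - (r + 2) + 1) = -1 := by
      rw [← pow_add]
      have : r + 1 + 1 + 1 + (2 * k + 3 - (r + 2) + 1) = 2 * (k + 2) + 1 := by omega
      rw [this, pow_succ, pow_mul]; simp
    have hne1 : r + 1 + 1 ≠ 0 := by omega
    have hne2 : r + 1 + 1 ≠ 1 := by omega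
    have hne3 : 2 * k + 3 - (r + 2) ≠ 0 := by omega
    have hne4 : 2 * k + 3 - (r + 2) ≠ 1 := by omega
    rw [e1]
    unfold cc
    rw [if_neg hne1, if_neg hne2, if_neg hne3, if_neg hne4, e2]
    linear_combination ((2 * k + 3).choose (r + 2) : F) ^ 2 * e3
  rw [prod_congr rfl h1, prod_mul_distrib, prod_const, card_range, prod_pow]
  simp only [cc]
  simp
  ring

/-- key expansion -/
theorem expand (k : ℕ) (x y : F) (hx : x ^ (2 * k + 2) = 1) (hy : y ^ (2 * k + 2) = 1) :
    (x - y) ^ (2 * k + 3) = ∑ i ∈ range (2 * k + 2), x ^ i * cc F k i * (y * y⁻¹ ^ i) := by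
  have hy0 : y ≠ 0 := by
    rintro rfl
    simp at hy
  have hterm : ∀ i ∈ range (2 * k + 1 + 1), x ^ i * cc F k i * (y * y⁻¹ ^ i) =
      x ^ i * (-y) ^ (2 * k + 3 - i) * ((2 * k + 3).choose i : F)
      + (if i = 0 then -((2 * k + 3 : ℕ) : F) * y else 0) + (if i = 1 then x else 0) := by
    intro i hi
    rw [mem_range] at hi
    have hyi : (-y) ^ (2 * k + 3 - i) = (-1) ^ (i + 1) * (y * y⁻¹ ^ i) := by
      have h1 : (-y) ^ (2 * k + 3 - i) = (-1) ^ (2 * k + 3 - i) * y ^ (2 * k + 3 - i) := by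
        rw [← mul_pow]; ring
      have h2 : (-1 : F) ^ (2 * k + 3 - i) = (-1) ^ (i + 1) := by
        have e : (-1 : F) ^ (2 * k + 3 - i) * (-1) ^ i = (-1) ^ (i + 1) * (-1) ^ i := by
          rw [← pow_add, ← pow_add]
          have a1 : 2 * k + 3 - i + i = 2 * (k + 1) + 1 := by omega
          have a2 : i + 1 + i = 2 * i + 1 := by omega
          rw [a1, a2, pow_succ, pow_succ, pow_mul, pow_mul]; simp
        exact mul_right_cancel₀ (pow_ne_zero _ (by simp)) e
      have h3 : y ^ (2 * k + 3 - i) = y * y⁻¹ ^ i := by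
        have e : y ^ (2 * k + 3 - i) * y ^ i = (y * y⁻¹ ^ i) * y ^ i := by
          rw [← pow_add]
          have a1 : 2 * k + 3 - i + i = 2 * k + 2 + 1 := by omega
          rw [a1, pow_succ, hy, mul_assoc, ← mul_pow, inv_mul_cancel₀ hy0]; simp
        exact mul_right_cancel₀ (pow_ne_zero _ hy0) e
      rw [h1, h2, h3]
    rw [hyi]
    rcases Nat.eq_zero_or_pos i with rfl | hi0
    · simp [cc]; ring
    · rcases Nat.eq_or_lt_of_le hi0 with h1 | h1
      · have : i = 1 := by omega
        subst this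
        simp [cc]
        field_simp
        ring
      · have hne1 : i ≠ 0 := by omega
        have hne2 : i ≠ 1 := by omega
        simp [cc, hne1, hne2]
        ring
  rw [show 2 * k + 2 = 2 * k + 1 + 1 by ring, sum_congr rfl hterm, sum_add_distrib, sum_add_distrib]
  rw [sum_ite_eq', sum_ite_eq', if_pos (by simp), if_pos (by simp)]
  rw [sub_eq_add_neg, add_pow, show 2 * k + 3 + 1 = 2 * k + 1 + 1 + 1 + 1 by ring,
    sum_range_succ, sum_range_succ]
  have e1 : 2 * k + 3 - (2 * k + 1 + 1) = 1 := by omega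
  have e2 : 2 * k + 3 - (2 * k + 1 + 1 + 1) = 0 := by omega
  have e3 : x ^ (2 * k + 1 + 1) = 1 := hx
  have e4 : x ^ (2 * k + 1 + 1 + 1) = x := by rw [pow_succ, e3, one_mul]
  have e5 : (2 * k + 3).choose (2 * k + 1 + 1) = 2 * k + 3 := by
    rw [show 2 * k + 1 + 1 = 2 * k + 2 by ring]
    exact Nat.choose_succ_self_right (2 * k + 2)
  have e6 : (2 * k + 3).choose (2 * k + 1 + 1 + 1) = 1 := Nat.choose_self _
  rw [e1, e2, e3, e4, e5, e6]
  push_cast
  ring


/-- sign bookkeeping -/
theorem sign_count (k : ℕ) :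
    (∏ i : Fin (2 * k + 2), ∏ _j ∈ Ioi i, (-1 : F)) = (-1) ^ (k + 1) := by
  simp only [prod_const, Fin.card_Ioi]
  rw [prod_pow_eq_pow_sum]
  have h : ∑ i : Fin (2 * k + 2), (2 * k + 2 - 1 - (i : ℕ)) = (k + 1) * (2 * k + 1) := by
    rw [Fin.sum_univ_eq_sum_range (fun i => 2 * k + 2 - 1 - i) (2 * k + 2),
      sum_range_reflect (fun i => i) (2 * k + 2), sum_range_id]
    rw [show (2 * k + 2) * (2 * k + 2 - 1) = 2 * ((k + 1) * (2 * k + 1)) by
      rw [show 2 * k + 2 - 1 = 2 * k + 1 by omega]; ring]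
    simp
  rw [h, show (k + 1) * (2 * k + 1) = 2 * (k * (k + 1)) + (k + 1) by ring, pow_add, pow_mul]
  simp

theorem det_rev (k : ℕ) (x : Fin (2 * k + 2) → F) :
    (Matrix.of fun (i j : Fin (2 * k + 2)) => x i ^ (2 * k + 1 - (j : ℕ))).det =
      (-1) ^ (k + 1) * (vandermonde x).det := by
  have h0 : (Matrix.of fun (i j : Fin (2 * k + 2)) => x i ^ (2 * k + 1 - (j : ℕ))) =
      projVandermonde (fun _ => 1) x := by
    ext i j
    rw [projVandermonde_apply, one_pow, one_mul, Matrix.of_apply, Fin.val_rev]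
    congr 1
    omega
  rw [h0, det_projVandermonde, det_vandermonde, ← sign_count, ← prod_mul_distrib]
  refine prod_congr rfl fun i _ => ?_
  rw [← prod_mul_distrib]
  refine prod_congr rfl fun j _ => ?_
  ring

theorem det_main (k : ℕ) (x : Fin (2 * k + 2) → F) (h1 : ∀ j, x j ^ (2 * k + 2) = 1)
    (hprod : ∏ j, x j = -1) :
    (Matrix.of fun (i j : Fin (2 * k + 2)) => (x i - x j) ^ (2 * k + 3)).det =
      ((vandermonde x).det * (((2 * k + 4 : ℕ) : F) *
        ∏ r ∈ range k, ((2 * k + 3).choose (r + 2) : F))) ^ 2 := by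
  have hM : (Matrix.of fun (i j : Fin (2 * k + 2)) => (x i - x j) ^ (2 * k + 3)) =
      vandermonde x * Matrix.diagonal (fun i : Fin (2 * k + 2) => cc F k i) *
      (Matrix.diagonal (fun i => x i ^ 2) *
        (Matrix.of fun (i j : Fin (2 * k + 2)) => x i ^ (2 * k + 1 - (j : ℕ))))ᵀ := by
    ext i j
    rw [Matrix.of_apply, expand k (x i) (x j) (h1 i) (h1 j), Matrix.mul_apply,
      ← Fin.sum_univ_eq_sum_range
        (fun l => x i ^ l * cc F k l * (x j * (x j)⁻¹ ^ l)) (2 * k + 2)]
    refine sum_congr rfl fun l _ => ?_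
    rw [Matrix.mul_diagonal, Matrix.transpose_apply, Matrix.diagonal_mul, vandermonde_apply,
      Matrix.of_apply]
    congr 1
    have hj0 : x j ≠ 0 := by
      intro h
      have := h1 j
      rw [h] at this
      simp at this
    have e : (x j * (x j)⁻¹ ^ (l : ℕ)) * x j ^ (l : ℕ) =
        (x j ^ 2 * x j ^ (2 * k + 1 - (l : ℕ))) * x j ^ (l : ℕ) := by
      have hl := l.isLt
      rw [mul_assoc, ← mul_pow, inv_mul_cancel₀ hj0, ← pow_add, ← pow_add,
        show 2 + (2 * k + 1 - (l : ℕ)) + l = 2 * k + 2 + 1 by omega, pow_succ, h1 j]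
      simp
    exact mul_right_cancel₀ (pow_ne_zero _ hj0) e
  rw [hM, Matrix.det_mul, Matrix.det_mul, Matrix.det_transpose, Matrix.det_mul,
    Matrix.det_diagonal, Matrix.det_diagonal, det_rev, prod_pow, hprod,
    Fin.prod_univ_eq_prod_range (fun i => cc F k i) (2 * k + 2), prod_cc]
  have hs : ((-1 : F) ^ (k + 1)) * (-1) ^ (k + 1) = 1 := by
    rw [← mul_pow]; simp
  linear_combination ((vandermonde x).det * (((2 * k + 4 : ℕ) : F) *
        ∏ r ∈ range k, ((2 * k + 3).choose (r + 2) : F))) ^ 2 * hs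

theorem det_sq (k : ℕ) (x : Fin (2 * k + 2) → F) (h1 : ∀ j, x j ^ (2 * k + 2) = 1)
    (hinj : Function.Injective x) (hprod : ∏ j, x j = -1) :
    (vandermonde x).det ^ 2 = (-1) ^ k * ((2 * k + 2 : ℕ) : F) ^ (2 * k + 2) := by
  have hM : vandermonde x * (Matrix.diagonal x *
        (Matrix.of fun (i j : Fin (2 * k + 2)) => x i ^ (2 * k + 1 - (j : ℕ))))ᵀ =
      Matrix.diagonal (fun _ => ((2 * k + 2 : ℕ) : F)) := by
    ext i j
    rw [Matrix.mul_apply]
    have hsum : ∑ l : Fin (2 * k + 2), vandermonde x i l * (Matrix.diagonal x *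
        (Matrix.of fun (i j : Fin (2 * k + 2)) => x i ^ (2 * k + 1 - (j : ℕ))))ᵀ l j
        = x j * ∑ l ∈ range (2 * k + 2), x i ^ l * x j ^ (2 * k + 2 - 1 - l) := by
      rw [mul_sum, ← Fin.sum_univ_eq_sum_range
        (fun l => x j * (x i ^ l * x j ^ (2 * k + 2 - 1 - l))) (2 * k + 2)]
      refine sum_congr rfl fun l _ => ?_
      rw [Matrix.transpose_apply, Matrix.diagonal_mul, vandermonde_apply, Matrix.of_apply]
      rw [show 2 * k + 2 - 1 = 2 * k + 1 by omega]
      ring
    rw [hsum]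
    by_cases hij : i = j
    · subst hij
      rw [Matrix.diagonal_apply_eq, mul_sum]
      have : ∀ l ∈ range (2 * k + 2), x i * (x i ^ l * x i ^ (2 * k + 2 - 1 - l)) = 1 := by
        intro l hl
        rw [mem_range] at hl
        rw [← pow_add, show l + (2 * k + 2 - 1 - l) = 2 * k + 1 by omega, ← pow_succ', h1]
      rw [sum_congr rfl this]
      simp
    · rw [Matrix.diagonal_apply_ne _ hij]
      have hg := geom_sum₂_mul (x i) (x j) (2 * k + 2)
      rw [h1, h1, sub_self] at hg
      rcases mul_eq_zero.mp hg with h | h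
      · rw [h, mul_zero]
      · exact absurd (hinj (sub_eq_zero.mp h)) hij
  have hd := congrArg Matrix.det hM
  rw [Matrix.det_mul, Matrix.det_transpose, Matrix.det_mul, Matrix.det_diagonal,
    Matrix.det_diagonal, det_rev, hprod, prod_const, card_univ, Fintype.card_fin] at hd
  rw [← hd]
  have hs : ((-1 : F) ^ k) * (-1) ^ (k + 1) = -1 := by
    rw [pow_succ, ← mul_assoc, ← mul_pow]; simp
  linear_combination (vandermonde x).det ^ 2 * hs

end


section arith

variable (p : ℕ) [Fact p.Prime]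

/-- The determinant `D_p^{(1)}`. -/
noncomputable def skewDet : ℤ :=
  (Matrix.of fun j k : Fin ((p - 1) / 2) =>
    ((((j : ℕ) : ℤ) + 1) ^ 2 - (((k : ℕ) : ℤ) + 1) ^ 2) *
      legendreSym p ((((j : ℕ) : ℤ) + 1) ^ 2 - (((k : ℕ) : ℤ) + 1) ^ 2)).det

/-- `N(p)`: the number of integers `0 < k < p/4` with Legendre symbol `-1`. -/
noncomputable def quarterCount : ℕ :=
  ((Finset.Ioo (0 : ℤ) (p : ℤ)).filter fun k => 4 * k < (p : ℤ) ∧ legendreSym p k = -1).card

variable {p}

theorem fact_ne_zero {j : ℕ} (hj : j < p) : ((j.factorial : ℕ) : ZMod p) ≠ 0 := by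
  intro h
  rw [ZMod.natCast_eq_zero_iff] at h
  have := ((Fact.out : p.Prime).dvd_factorial).mp h
  omega

theorem natCast_ne_zero {j : ℕ} (h0 : 0 < j) (hj : j < p) : ((j : ℕ) : ZMod p) ≠ 0 := by
  intro h
  rw [ZMod.natCast_eq_zero_iff] at h
  have := Nat.le_of_dvd h0 h
  omega

theorem prod_range_succ_cast (n : ℕ) :
    ∏ r ∈ range n, ((r : ZMod p) + 1) = ((n.factorial : ℕ) : ZMod p) := by
  rw [← prod_range_add_one_eq_factorial]
  push_cast
  rfl

theorem half_fact_sq {k : ℕ} (hk : p = 4 * k + 5) :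
    (((2 * k + 2).factorial : ℕ) : ZMod p) ^ 2 = -1 := by
  have hW := ZMod.wilsons_lemma p
  have h1 : p - 1 = (2 * k + 2) + (2 * k + 2) := by omega
  rw [h1, ← prod_range_succ_cast, prod_range_add,
    ← prod_range_reflect (fun r => (((2 * k + 2 + r : ℕ) : ZMod p) + 1)) (2 * k + 2)] at hW
  have h2 : ∀ r ∈ range (2 * k + 2),
      (((2 * k + 2 + (2 * k + 2 - 1 - r) : ℕ) : ZMod p) + 1) = (-1) * ((r : ZMod p) + 1) := by
    intro r hr
    rw [mem_range] at hr
    have e : ((2 * k + 2 + (2 * k + 2 - 1 - r) + 1) + (r + 1) : ℕ) = p := by omega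
    have e' := congrArg (Nat.cast (R := ZMod p)) e
    rw [ZMod.natCast_self] at e'
    push_cast at e' ⊢
    linear_combination e'
  rw [prod_congr rfl h2, prod_mul_distrib, prod_const, card_range, prod_range_succ_cast] at hW
  have h3 : (-1 : ZMod p) ^ (2 * k + 2) = 1 := by
    rw [show 2 * k + 2 = 2 * (k + 1) by ring, pow_mul]; simp
  rw [h3] at hW
  linear_combination hW

theorem chi_two {k : ℕ} (hk : p = 4 * k + 5) :
    quadraticChar (ZMod p) 2 = (-1) ^ (k + 1) := by
  have hp2 : p ≠ 2 := by omega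
  have h := legendreSym.at_two hp2
  rw [legendreSym] at h
  push_cast at h
  rw [h, ZMod.χ₈_nat_eq_if_mod_eight]
  rcases Nat.even_or_odd k with ⟨t, ht⟩ | ⟨t, ht⟩
  · have : p % 8 = 5 := by omega
    rw [this]
    have h1 : ¬ (p % 2 = 0) := by omega
    simp [h1]
    rw [ht, ← two_mul, pow_succ, pow_mul]; simp
  · have : p % 8 = 1 := by omega
    rw [this]
    have h1 : ¬ (p % 2 = 0) := by omega
    simp [h1]
    rw [ht, show 2 * t + 1 + 1 = 2 * (t + 1) by ring, pow_mul]; simp

theorem chi_sq {a : ZMod p} (ha : a ≠ 0) : quadraticChar (ZMod p) a * quadraticChar (ZMod p) a = 1 := by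
  have := quadraticChar_sq_one ha
  rwa [sq] at this

theorem chi_neg_one {k : ℕ} (hk : p = 4 * k + 5) : quadraticChar (ZMod p) (-1) = 1 := by
  have h : legendreSym p (-1) = ZMod.χ₄ p := legendreSym.at_neg_one (by omega)
  rw [legendreSym] at h
  push_cast at h
  rw [h, ZMod.χ₄_nat_one_mod_four (by omega)]

theorem chi_of_sq {k : ℕ} (hk : p = 4 * k + 5) {a : ZMod p} (ha : a ^ 2 = -1) :
    quadraticChar (ZMod p) a = (-1) ^ (k + 1) := by
  have hp := (Fact.out : p.Prime)
  have h1 : ((quadraticChar (ZMod p) a : ℤ) : ZMod p) = a ^ (p / 2) := by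
    have := quadraticChar_eq_pow_of_char_ne_two' (F := ZMod p) (by rw [ZMod.ringChar_zmod_n]; omega) a
    rwa [ZMod.card] at this
  have h2 : p / 2 = 2 * (k + 1) := by omega
  rw [h2, pow_mul, ha] at h1
  have ha0 : a ≠ 0 := by
    rintro rfl
    simp at ha
  have hne : (1 : ZMod p) ≠ -1 := by
    intro h
    have h2 : ((2 : ℕ) : ZMod p) = 0 := by
      push_cast
      linear_combination h
    rw [ZMod.natCast_eq_zero_iff] at h2
    have := Nat.le_of_dvd (by norm_num) h2
    omega
  rcases quadraticChar_dichotomy ha0 with h | h <;>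
    rcases Nat.even_or_odd (k + 1) with h3 | h3
  · rw [h, h3.neg_one_pow]
  · rw [h, h3.neg_one_pow] at h1
    exfalso
    apply hne
    simpa using h1
  · rw [h, h3.neg_one_pow] at h1
    exfalso
    apply hne
    simpa using h1.symm
  · rw [h, h3.neg_one_pow]

/-- product of factorial symbols -/
theorem prod_omega {k : ℕ} (hk : p = 4 * k + 5) :
    ∏ r ∈ range (k + k), quadraticChar (ZMod p) (((r + 2).factorial : ℕ) : ZMod p) =
      (quadraticChar (ZMod p) 2) ^ (k + 1) *
        (∏ t ∈ range (k + 1), quadraticChar (ZMod p) ((t : ZMod p) + 1)) *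
        quadraticChar (ZMod p) (((2 * k + 2).factorial : ℕ) : ZMod p) := by
  have h1 : ∀ m : ℕ, 2 * m < p →
      ∏ r ∈ range (2 * m), quadraticChar (ZMod p) (((r + 1).factorial : ℕ) : ZMod p) =
      (quadraticChar (ZMod p) 2) ^ m *
        ∏ t ∈ range m, quadraticChar (ZMod p) ((t : ZMod p) + 1) := by
    intro m
    induction m with
    | zero => intro _; simp
    | succ m ih =>
      intro hm
      rw [show 2 * (m + 1) = 2 * m + 1 + 1 by ring, prod_range_succ, prod_range_succ,
        ih (by omega), prod_range_succ, pow_succ]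
      have e : (((2 * m + 1 + 1).factorial : ℕ) : ZMod p) =
          2 * ((m : ZMod p) + 1) * (((2 * m + 1).factorial : ℕ) : ZMod p) := by
        rw [Nat.factorial_succ (2 * m + 1)]
        push_cast
        ring
      rw [e, map_mul, map_mul]
      have hs := chi_sq (fact_ne_zero (p := p) (j := 2 * m + 1) (by omega))
      linear_combination ((quadraticChar (ZMod p) 2) ^ m *
        (∏ t ∈ range m, quadraticChar (ZMod p) ((t : ZMod p) + 1)) *
        quadraticChar (ZMod p) 2 * quadraticChar (ZMod p) ((m : ZMod p) + 1)) * hs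
  have h2 := h1 (k + 1) (by omega)
  rw [← h2, show 2 * (k + 1) = (k + k + 1) + 1 by ring, prod_range_succ, prod_range_succ']
  have hs := chi_sq (fact_ne_zero (p := p) (j := 2 * k + 2) (by omega))
  rw [show k + k + 1 + 1 = 2 * k + 2 by ring]
  simp only [zero_add, Nat.factorial_one, Nat.cast_one, map_one, mul_one]
  rw [mul_assoc, hs, mul_one]

theorem prod_quarter {k : ℕ} (hk : p = 4 * k + 5) :
    ∏ t ∈ range (k + 1), quadraticChar (ZMod p) ((t : ZMod p) + 1) = (-1) ^ (quarterCount p) := by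
  have h1 : ∀ t ∈ range (k + 1), quadraticChar (ZMod p) ((t : ZMod p) + 1) =
      if legendreSym p (((t : ℕ) : ℤ) + 1) = -1 then (-1 : ℤ) else 1 := by
    intro t ht
    rw [mem_range] at ht
    have h0 : ((t : ZMod p) + 1) ≠ 0 := by
      have := natCast_ne_zero (p := p) (j := t + 1) (by omega) (by omega)
      push_cast at this
      exact this
    have e : legendreSym p (((t : ℕ) : ℤ) + 1) = quadraticChar (ZMod p) ((t : ZMod p) + 1) := by
      rw [legendreSym]; push_cast; rfl
    rw [e]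
    rcases quadraticChar_dichotomy h0 with h | h
    · rw [h]; simp
    · rw [h]; simp
  rw [prod_congr rfl h1, prod_ite, prod_const, prod_const, one_pow, mul_one]
  congr 1
  unfold quarterCount
  refine card_bij' (fun t _ => ((t : ℕ) : ℤ) + 1) (fun j _ => (j - 1).toNat) ?_ ?_ ?_ ?_
  · intro t ht
    simp only [mem_filter, mem_range, mem_Ioo] at ht ⊢
    refine ⟨⟨by omega, by omega⟩, by omega, ht.2⟩
  · intro j hj
    simp only [mem_filter, mem_range, mem_Ioo] at hj ⊢
    refine ⟨by omega, ?_⟩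
    have : (((j - 1).toNat : ℕ) : ℤ) + 1 = j := by omega
    rw [this]
    exact hj.2.2
  · intro t ht
    simp
  · intro j hj
    simp only [mem_filter, mem_Ioo] at hj
    omega

theorem main {k : ℕ} (hk : p = 4 * k + 5) (s : ℤ) (hs : s ^ 2 = skewDet p) :
    legendreSym p s = (-1) ^ (quarterCount p) * legendreSym 3 p := by
  have hp := (Fact.out : p.Prime)
  set χ := quadraticChar (ZMod p) with hχ
  have hn : (p - 1) / 2 = 2 * k + 2 := by omega
  let x : Fin (2 * k + 2) → ZMod p := fun j => (((j : ℕ) : ZMod p) + 1) ^ 2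
  have hx1 : ∀ j, x j ^ (2 * k + 2) = 1 := by
    intro j
    have h0 := natCast_ne_zero (p := p) (j := (j : ℕ) + 1) (by omega) (by omega)
    push_cast at h0
    have := ZMod.pow_card_sub_one_eq_one h0
    simp only [x]
    rw [← pow_mul, show 2 * (2 * k + 2) = p - 1 by omega]
    exact this
  have hinj : Function.Injective x := by
    intro i j hij
    simp only [x] at hij
    have h : (((i : ℕ) : ZMod p) - ((j : ℕ) : ZMod p)) *
        (((i : ℕ) : ZMod p) + ((j : ℕ) : ZMod p) + 2) = 0 := by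
      linear_combination hij
    rcases mul_eq_zero.mp h with h | h
    · have h' : ((i : ℕ) : ZMod p) = ((j : ℕ) : ZMod p) := sub_eq_zero.mp h
      rw [ZMod.natCast_eq_natCast_iff'] at h'
      rw [Nat.mod_eq_of_lt (by omega), Nat.mod_eq_of_lt (by omega)] at h'
      exact Fin.ext h'
    · exfalso
      have := natCast_ne_zero (p := p) (j := (i : ℕ) + (j : ℕ) + 2) (by omega) (by omega)
      apply this
      push_cast
      exact h
  have hprod : ∏ j, x j = -1 := by
    simp only [x]
    rw [Fin.prod_univ_eq_prod_range (fun j => ((j : ZMod p) + 1) ^ 2) (2 * k + 2), prod_pow,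
      prod_range_succ_cast, half_fact_sq hk]
  set d := (vandermonde x).det with hd
  set E := (((2 * k + 4 : ℕ) : ZMod p) *
        ∏ r ∈ range k, ((2 * k + 3).choose (r + 2) : ZMod p)) with hE
  have hdet := det_main k x hx1 hprod
  have hsq := det_sq k x hx1 hinj hprod
  -- the determinant modulo p
  have hD : ((skewDet p : ℤ) : ZMod p) = (d * E) ^ 2 := by
    rw [← hdet]
    unfold skewDet
    rw [← eq_intCast (Int.castRingHom (ZMod p)), RingHom.map_det]
    rw [← Matrix.det_submatrix_equiv_self (finCongr hn.symm)]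
    congr 1
    ext i j
    simp only [RingHom.mapMatrix_apply, Matrix.submatrix_apply, Matrix.map_apply, Matrix.of_apply,
      finCongr_apply, Fin.val_cast, Int.coe_castRingHom]
    rw [Int.cast_mul, legendreSym.eq_pow, show p / 2 = 2 * k + 2 by omega, ← pow_succ']
    simp only [x]
    push_cast
    rfl
  have hs' : ((s : ℤ) : ZMod p) ^ 2 = (d * E) ^ 2 := by
    rw [← hD, ← hs]; push_cast; ring
  have hn2 : (2 : ZMod p) * ((2 * k + 2 : ℕ) : ZMod p) = -1 := by
    have e : ((2 * (2 * k + 2) + 1 : ℕ)) = p := by omega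
    have e' := congrArg (Nat.cast (R := ZMod p)) e
    rw [ZMod.natCast_self] at e'
    push_cast at e' ⊢
    linear_combination e'
  have h20 : (2 : ZMod p) ≠ 0 := by
    have := natCast_ne_zero (p := p) (j := 2) (by omega) (by omega)
    push_cast at this
    exact this
  have hε : ((-1 : ℤ) ^ (k + 1)) * (-1) ^ (k + 1) = 1 := by rw [← mul_pow]; simp
  -- d ^ 2 = -1
  have hd2 : d ^ 2 = -1 := by
    rw [hsq]
    have h1 : χ ((2 * k + 2 : ℕ) : ZMod p) = (-1) ^ (k + 1) := by
      have h := congrArg χ hn2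
      rw [map_mul, chi_neg_one hk, hχ, chi_two hk] at h
      linear_combination (-1) ^ (k + 1) * h - (quadraticChar (ZMod p) ((2 * k + 2 : ℕ) : ZMod p)) * hε
    have h2 : ((χ ((2 * k + 2 : ℕ) : ZMod p) : ℤ) : ZMod p) =
        ((2 * k + 2 : ℕ) : ZMod p) ^ (2 * k + 2) := by
      have := quadraticChar_eq_pow_of_char_ne_two' (F := ZMod p)
        (by rw [ZMod.ringChar_zmod_n]; omega) ((2 * k + 2 : ℕ) : ZMod p)
      rwa [ZMod.card, show p / 2 = 2 * k + 2 by omega] at this
    rw [← h2, h1]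
    push_cast
    rw [pow_succ, ← mul_assoc, ← mul_pow]; simp
  have hχd : χ d = (-1) ^ (k + 1) := chi_of_sq hk hd2
  have hχf : χ (((2 * k + 2).factorial : ℕ) : ZMod p) = (-1) ^ (k + 1) :=
    chi_of_sq hk (half_fact_sq hk)
  have hχ2 : χ 2 = (-1) ^ (k + 1) := chi_two hk
  -- (2k+3)!
  have hχg : χ (((2 * k + 3).factorial : ℕ) : ZMod p) = 1 := by
    rw [Nat.factorial_succ (2 * k + 2)]
    have e0 : (2 : ZMod p) * ((2 * k + 2 + 1 : ℕ) : ZMod p) = 1 := by
      push_cast at hn2 ⊢
      linear_combination hn2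
    have h := congrArg χ e0
    rw [map_mul, map_one, hχ2] at h
    rw [Nat.cast_mul, map_mul, hχf]
    linear_combination h
  -- E
  have hχ4 : χ ((2 * k + 4 : ℕ) : ZMod p) = (-1) ^ (k + 1) * legendreSym 3 p := by
    have e0 : (2 : ZMod p) * ((2 * k + 4 : ℕ) : ZMod p) = 3 := by
      push_cast at hn2 ⊢
      linear_combination hn2
    have h := congrArg χ e0
    have h3 : χ 3 = legendreSym 3 p := by
      rw [legendreSym.quadratic_reciprocity_one_mod_four (by omega) (by norm_num)]
      rw [legendreSym]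
      push_cast
      rfl
    rw [map_mul, hχ2, h3] at h
    linear_combination (-1) ^ (k + 1) * h - (χ ((2 * k + 4 : ℕ) : ZMod p)) * hε
  have hχC : χ (∏ r ∈ range k, ((2 * k + 3).choose (r + 2) : ZMod p)) =
      ∏ r ∈ range (k + k), χ (((r + 2).factorial : ℕ) : ZMod p) := by
    rw [map_prod, show (∏ r ∈ range (k + k), χ (((r + 2).factorial : ℕ) : ZMod p)) =
      ∏ r ∈ range k, (χ (((r + 2).factorial : ℕ) : ZMod p) *
        χ (((k + (k - 1 - r) + 2).factorial : ℕ) : ZMod p)) by
        rw [prod_range_add,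
          ← prod_range_reflect (fun r => χ (((k + r + 2).factorial : ℕ) : ZMod p)) k,
          ← prod_mul_distrib]]
    refine prod_congr rfl fun r hr => ?_
    rw [mem_range] at hr
    have e := Nat.choose_mul_factorial_mul_factorial (n := 2 * k + 3) (k := r + 2) (by omega)
    rw [show 2 * k + 3 - (r + 2) = k + (k - 1 - r) + 2 by omega] at e
    have e' := congrArg (fun t : ℕ => χ ((t : ℕ) : ZMod p)) e
    rw [hχg, Nat.cast_mul, Nat.cast_mul, map_mul, map_mul] at e'
    have s1 := chi_sq (fact_ne_zero (p := p) (j := r + 2) (by omega))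
    have s2 := chi_sq (fact_ne_zero (p := p) (j := k + (k - 1 - r) + 2) (by omega))
    rw [← hχ] at s1 s2
    set A := χ (((r + 2).factorial : ℕ) : ZMod p)
    set B := χ (((k + (k - 1 - r) + 2).factorial : ℕ) : ZMod p)
    set C := χ ((2 * k + 3).choose (r + 2) : ZMod p)
    linear_combination A * B * e' - C * B * B * s1 - C * s2
  have hχE : χ E = (-1) ^ (k + 1) * ((-1) ^ (quarterCount p) * legendreSym 3 p) := by
    rw [hE, map_mul, hχC, prod_omega hk, ← hχ, prod_quarter hk, hχ4, hχ2, hχf]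
    have hpow : (((-1 : ℤ) ^ (k + 1)) ^ (k + 1)) * (-1) ^ (k + 1) = 1 := by
      rw [← pow_mul, ← pow_add, show (k + 1) * (k + 1) + (k + 1) = (k + 1) * (k + 1 + 1) by ring]
      exact Even.neg_one_pow (Nat.even_mul_succ_self (k + 1))
    linear_combination ((-1) ^ (k + 1) * (-1) ^ (quarterCount p) * legendreSym 3 p) * hpow
  have hfin : χ (d * E) = (-1) ^ (quarterCount p) * legendreSym 3 p := by
    rw [map_mul, hχd, hχE]
    linear_combination ((-1) ^ (quarterCount p) * legendreSym 3 p) * hε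
  rw [legendreSym, ← hfin]
  rcases sq_eq_sq_iff_eq_or_eq_neg.mp hs' with h | h
  · rw [h]
  · rw [h, ← neg_one_mul, map_mul, hχ, chi_neg_one hk, one_mul]


end arith

/-- For every prime `p ≡ 1 (mod 4)`: the integer `D_p^{(1)}` is a perfect square, and every integer
square root `s` of it satisfies `(s/p) = (-1)^{N(p)} (p/3)`. -/
theorem result (p : ℕ) [Fact p.Prime] (hp : p % 4 = 1) :
    (∃ s : ℤ, s ^ 2 = skewDet p) ∧
      ∀ s : ℤ, s ^ 2 = skewDet p →
        legendreSym p s = (-1) ^ (quarterCount p) * legendreSym 3 p := by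
  have hprime := (Fact.out : p.Prime)
  have h1 : p ≠ 1 := hprime.one_lt.ne'
  refine ⟨?_, ?_⟩
  · have hsq : IsSquare ((skewDet p : ℤ) : ℚ) := by
      unfold skewDet
      rw [← eq_intCast (Int.castRingHom ℚ), RingHom.map_det]
      refine isSquare_det_of_alt _ rfl _ ?_ ?_
      · intro i
        simp
      · intro i j
        simp only [RingHom.mapMatrix_apply, Matrix.map_apply, Matrix.of_apply,
          Int.coe_castRingHom]
        have hneg : legendreSym p ((((i : ℕ) : ℤ) + 1) ^ 2 - (((j : ℕ) : ℤ) + 1) ^ 2) =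
            legendreSym p ((((j : ℕ) : ℤ) + 1) ^ 2 - (((i : ℕ) : ℤ) + 1) ^ 2) := by
          rw [← neg_sub, legendreSym.at_neg (by omega), ZMod.χ₄_nat_one_mod_four hp, one_mul]
        rw [hneg]
        push_cast
        ring
    rw [Rat.isSquare_intCast_iff] at hsq
    obtain ⟨r, hr⟩ := hsq
    exact ⟨r, by rw [hr]; ring⟩
  · intro s hs
    obtain ⟨k, hk⟩ : ∃ k, p = 4 * k + 5 := ⟨(p - 5) / 4, by omega⟩
    exact main hk s hs

end Pool.Agent.Results.MP_6c59e0_nt.SkewLegendre
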